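import Pool.Agent.H110R3.UF.Stmts

set_option autoImplicit false
set_option linter.unusedSectionVars false

open CategoryTheory MonoidalCategory CategoryTheory.Limits
open scoped Matrix

universe v u

namespace Pool.Agent.Helper923.UF

open Pool.Agent.H110R3.UF

variable {C : Type u} [Category.{v} C] [Abelian C] [Linear ℂ C] [MonoidalCategory C]
  {R : Reps C}

/-- the hypotheses -/
structure Hyp (G : Gauge R) (dl : ∀ a b, R.S a ⟶ R.S b)
    (coef : ∀ a b, (R.S a ⟶ R.S b) →ₗ[ℂ] ℂ)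
    (G' : ∀ a b c, Fin (G.N a b c) → (R.S a ⊗ R.S b ⟶ R.S c)) : Prop where
  unit : G.UnitaryF
  dl_self : ∀ a, dl a a = 𝟙 (R.S a)
  dl_ne : ∀ a b, a ≠ b → dl a b = 0
  coef_dl : ∀ a b, coef a b (dl a b) = if a = b then 1 else 0
  eq_coef : ∀ a b (g : R.S a ⟶ R.S b), g = coef a b g • dl a b
  ortho : ∀ a b c k c' k', G.basis a b c k ≫ G' a b c' k' =
      if (⟨c, k⟩ : Σ c, Fin (G.N a b c)) = ⟨c', k'⟩ then dl c c' else 0
  total : ∀ a b, ∑ p : Σ c, Fin (G.N a b c), G' a b p.1 p.2 ≫ G.basis a b p.1 p.2 = 𝟙 _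

variable {G : Gauge R} {dl : ∀ a b, R.S a ⟶ R.S b} {coef : ∀ a b, (R.S a ⟶ R.S b) →ₗ[ℂ] ℂ}
  {G' : ∀ a b c, Fin (G.N a b c) → (R.S a ⊗ R.S b ⟶ R.S c)}

theorem Hyp.coef_id (H : Hyp G dl coef G') (a) : coef a a (𝟙 _) = 1 := by
  rw [← H.dl_self, H.coef_dl, if_pos rfl]

theorem Hyp.hom_ne (H : Hyp G dl coef G') {a b} (h : a ≠ b) (g : R.S a ⟶ R.S b) : g = 0 := by
  rw [H.eq_coef a b g, H.dl_ne a b h, smul_zero]

theorem Hyp.hom_self (H : Hyp G dl coef G') {a} (g : R.S a ⟶ R.S a) : g = coef a a g • 𝟙 _ := by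
  conv_lhs => rw [H.eq_coef a a g, H.dl_self]

theorem Hyp.comp_self (H : Hyp G dl coef G') (a b c k) :
    G.basis a b c k ≫ G' a b c k = 𝟙 _ := by
  rw [H.ortho, if_pos rfl, H.dl_self]

section iso

variable (H : Hyp G dl coef G') {a b t : Fin R.n} (x : R.S a ⊗ R.S b ⟶ R.S t)
  (y : R.S t ⟶ R.S a ⊗ R.S b) (hxy : x ≫ y = 𝟙 _) (hyx : y ≫ x = 𝟙 _)

include H hxy

theorem E1 {c : Fin R.n} (hc : c ≠ t) (k : Fin (G.N a b c)) : False := by
  have h1 : G.basis a b c k = 0 := by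
    calc G.basis a b c k = (G.basis a b c k ≫ x) ≫ y := by rw [Category.assoc, hxy, Category.comp_id]
      _ = 0 := by rw [H.hom_ne hc (G.basis a b c k ≫ x), zero_comp]
  have h2 := H.comp_self a b c k
  rw [h1, zero_comp] at h2
  have h3 := H.coef_id c
  rw [← h2, map_zero] at h3
  exact zero_ne_one h3

theorem E3 (k : Fin (G.N a b t)) : G.basis a b t k = coef t t (G.basis a b t k ≫ x) • y := by
  calc G.basis a b t k = (G.basis a b t k ≫ x) ≫ y := by rw [Category.assoc, hxy, Category.comp_id]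
    _ = (coef t t (G.basis a b t k ≫ x) • 𝟙 _) ≫ y := by rw [← H.hom_self]
    _ = _ := by rw [Linear.smul_comp, Category.id_comp]

theorem E4 (k k' : Fin (G.N a b t)) : coef t t (G.basis a b t k ≫ x) * coef t t (y ≫ G' a b t k') =
    coef t t (G.basis a b t k ≫ G' a b t k') := by
  conv_rhs => rw [E3 H x y hxy k]
  rw [Linear.smul_comp, map_smul, smul_eq_mul]

theorem E5 (k : Fin (G.N a b t)) :
    coef t t (G.basis a b t k ≫ x) * coef t t (y ≫ G' a b t k) = 1 := by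
  rw [E4 H x y hxy, H.comp_self, H.coef_id]

theorem E2 : Subsingleton (Fin (G.N a b t)) := by
  refine ⟨fun k k' => ?_⟩
  by_contra hne
  have h1 := E4 H x y hxy k k'
  rw [H.ortho, if_neg (by
    intro h
    exact hne (eq_of_heq (Sigma.mk.inj h).2)), map_zero] at h1
  have h2 := E5 H x y hxy k
  have h3 := E5 H x y hxy k'
  rcases mul_eq_zero.1 h1 with h | h
  · rw [h, zero_mul] at h2; exact zero_ne_one h2
  · rw [h, mul_zero] at h3; exact zero_ne_one h3

include hyx in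
theorem E6 : Nonempty (Fin (G.N a b t)) := by
  by_contra hne
  rw [not_nonempty_iff] at hne
  have hempty : IsEmpty (Σ c, Fin (G.N a b c)) := by
    refine ⟨fun p => ?_⟩
    by_cases hc : p.1 = t
    · obtain ⟨c, k⟩ := p
      subst hc
      exact hne.false k
    · exact E1 H x y hxy hc p.2
  have h1 := H.total a b
  rw [Finset.univ_eq_empty, Finset.sum_empty] at h1
  have h2 : (𝟙 (R.S t)) = 0 := by
    rw [← hyx, ← Category.comp_id y, ← h1, comp_zero, zero_comp]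
  have h3 := H.coef_id t
  rw [h2, map_zero] at h3
  exact zero_ne_one h3

end iso

section unit

variable [MonoidalPreadditive C] [MonoidalLinear ℂ C] {o : Fin R.n}

/-- left -/
def uu (oi : R.S o ⟶ 𝟙_ C) (b : Fin R.n) : R.S o ⊗ R.S b ⟶ R.S b := (oi ▷ R.S b) ≫ (λ_ _).hom
def ui (op : 𝟙_ C ⟶ R.S o) (b : Fin R.n) : R.S b ⟶ R.S o ⊗ R.S b := (λ_ _).inv ≫ (op ▷ R.S b)
/-- right -/
def ww (oi : R.S o ⟶ 𝟙_ C) (a : Fin R.n) : R.S a ⊗ R.S o ⟶ R.S a := (R.S a ◁ oi) ≫ (ρ_ _).hom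
def wi (op : 𝟙_ C ⟶ R.S o) (a : Fin R.n) : R.S a ⟶ R.S a ⊗ R.S o := (ρ_ _).inv ≫ (R.S a ◁ op)

variable (oi : R.S o ⟶ 𝟙_ C) (op : 𝟙_ C ⟶ R.S o) (h1 : oi ≫ op = 𝟙 _) (h2 : op ≫ oi = 𝟙 _)

include h1 in
theorem uu_ui (b : Fin R.n) : uu oi b ≫ ui op b = 𝟙 _ := by
  unfold uu ui
  rw [Category.assoc, Iso.hom_inv_id_assoc, ← comp_whiskerRight, h1, id_whiskerRight]

include h2 in
theorem ui_uu (b : Fin R.n) : ui op b ≫ uu oi b = 𝟙 _ := by
  unfold uu ui
  rw [Category.assoc, ← comp_whiskerRight_assoc, h2, id_whiskerRight, Category.id_comp,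
    Iso.inv_hom_id]

include h1 in
theorem ww_wi (b : Fin R.n) : ww oi b ≫ wi op b = 𝟙 _ := by
  unfold ww wi
  rw [Category.assoc, Iso.hom_inv_id_assoc, ← whiskerLeft_comp, h1, whiskerLeft_id]

include h2 in
theorem wi_ww (b : Fin R.n) : wi op b ≫ ww oi b = 𝟙 _ := by
  unfold ww wi
  rw [Category.assoc, ← whiskerLeft_comp_assoc, h2, whiskerLeft_id, Category.id_comp,
    Iso.inv_hom_id]

theorem tri (a b : Fin R.n) : (wi op a ▷ R.S b) ≫ (α_ _ _ _).hom = R.S a ◁ ui op b := by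
  unfold wi ui
  monoidal

section norms

variable (H : Hyp G dl coef G')

include H h1 in
theorem norm_eq {a b d : Fin R.n} (hs : Subsingleton (G.RPath a o b d))
    (i : Fin (G.N a o a)) (j : Fin (G.N a b d)) (k : Fin (G.N o b b)) (h2 : op ≫ oi = 𝟙 _) :
    ‖coef a a (G.basis a o a i ≫ ww oi a)‖ = ‖coef b b (G.basis o b b k ≫ uu oi b)‖ := by
  obtain ⟨M, hM, hM1, hM2⟩ := H.unit a o b d
  set p : G.LPath a o b d := ⟨a, (i, j)⟩ with hp
  set q : G.RPath a o b d := ⟨b, (k, j)⟩ with hq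
  have hn : M p q * star (M p q) = 1 := by
    have h3 := congrFun (congrFun hM1 p) p
    rw [Matrix.mul_apply, Fintype.sum_subsingleton _ q, Matrix.conjTranspose_apply,
      Matrix.one_apply_eq] at h3
    exact h3
  have hn2 : ‖M p q‖ = 1 := by
    have h3 := congrArg norm hn
    rw [norm_mul, norm_star, norm_one] at h3
    nlinarith [norm_nonneg (M p q)]
  have h4 := hM p
  rw [Fintype.sum_subsingleton _ q] at h4
  have h5 : G.lvec p ≫ (α_ _ _ _).hom = coef a a (G.basis a o a i ≫ ww oi a) •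
      (G.basis a b d j ≫ (R.S a ◁ ui op b)) := by
    have h6 := E3 H (ww oi a) (wi op a) (ww_wi oi op h1 a) i
    show (G.basis a b d j ≫ (G.basis a o a i ▷ R.S b)) ≫ (α_ _ _ _).hom = _
    conv_lhs => rw [h6]
    rw [MonoidalLinear.smul_whiskerRight, Linear.comp_smul, Linear.smul_comp, Category.assoc, tri]
  have h7 : G.rvec q = coef b b (G.basis o b b k ≫ uu oi b) •
      (G.basis a b d j ≫ (R.S a ◁ ui op b)) := by
    have h6 := E3 H (uu oi b) (ui op b) (uu_ui oi op h1 b) k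
    show G.basis a b d j ≫ (R.S a ◁ G.basis o b b k) = _
    conv_lhs => rw [h6]
    rw [MonoidalLinear.whiskerLeft_smul, Linear.comp_smul]
  rw [h5, h7, smul_smul] at h4
  have h8 := congrArg (fun f => coef d d (f ≫ (R.S a ◁ uu oi b) ≫ G' a b d j)) h4
  simp only [Linear.smul_comp, map_smul, smul_eq_mul, Category.assoc] at h8
  have h9 : G.basis a b d j ≫ (R.S a ◁ ui op b) ≫ (R.S a ◁ uu oi b) ≫ G' a b d j = 𝟙 _ := by
    rw [← whiskerLeft_comp_assoc, ui_uu oi op h2, whiskerLeft_id, Category.id_comp, H.comp_self]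
  rw [h9, H.coef_id, mul_one, mul_one] at h8
  rw [h8, norm_mul, hn2, one_mul]

theorem sub_sigma {n : ℕ} (f : Fin n → Type) (g : Fin n → Type) (t : Fin n)
    (h : ∀ c, c ≠ t → f c → False) (hf : Subsingleton (f t)) (hg : Subsingleton (g t)) :
    Subsingleton (Σ c, f c × g c) := by
  have key : ∀ p : Σ c, f c × g c, ∀ q : f t × g t, p = ⟨t, q⟩ := by
    rintro ⟨c, k, l⟩ ⟨k', l'⟩
    by_cases hc : c = t
    · subst hc
      rw [Subsingleton.elim k k', Subsingleton.elim l l']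
    · exact (h c hc k).elim
  refine ⟨fun p q => ?_⟩
  obtain ⟨c, k, l⟩ := q
  by_cases hc : c = t
  · subst hc
    exact key p (k, l)
  · exact (h c hc k).elim

include H h1 in
theorem all_norms (h2 : op ≫ oi = 𝟙 _) (k0 : Fin (G.N o o o)) :
    (∀ b k, ‖coef b b (G.basis o b b k ≫ uu oi b)‖ = ‖coef o o (G.basis o o o k0 ≫ uu oi o)‖) ∧
    (∀ a i, ‖coef a a (G.basis a o a i ≫ ww oi a)‖ = ‖coef o o (G.basis o o o k0 ≫ uu oi o)‖) := by
  have hA : ∀ a i, ‖coef a a (G.basis a o a i ≫ ww oi a)‖ =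
      ‖coef o o (G.basis o o o k0 ≫ uu oi o)‖ := by
    intro a i
    refine norm_eq oi op h1 H (d := a) ?_ i i k0 h2
    exact sub_sigma _ _ o (fun c hc k => E1 H (uu oi o) (ui op o) (uu_ui oi op h1 o) hc k)
      (E2 H (uu oi o) (ui op o) (uu_ui oi op h1 o)) (E2 H (ww oi a) (wi op a) (ww_wi oi op h1 a))
  refine ⟨fun b k => ?_, hA⟩
  rw [← hA o k0]
  symm
  refine norm_eq oi op h1 H (d := b) ?_ k0 k k h2
  exact sub_sigma _ _ b (fun c hc k => E1 H (uu oi b) (ui op b) (uu_ui oi op h1 b) hc k)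
    (E2 H (uu oi b) (ui op b) (uu_ui oi op h1 b)) (E2 H (uu oi b) (ui op b) (uu_ui oi op h1 b))

end norms

end unit

theorem star_aux (c : ℝ) (hc : 0 < c) (L L' : ℂ) (h : L * L' = 1) (hn : ‖L‖ = c) :
    star ((c : ℂ)⁻¹ * L) = c * L' := by
  have hL : L ≠ 0 := by
    intro h0
    rw [h0, norm_zero] at hn
    linarith
  have h2 : L * star L = (c : ℂ) ^ 2 := by
    have := Complex.mul_conj L
    rw [Complex.normSq_eq_norm_sq, hn] at this
    push_cast at this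
    exact this
  have hc' : (c : ℂ) ≠ 0 := by exact_mod_cast hc.ne'
  have h3 : L' = L⁻¹ := eq_inv_of_mul_eq_one_right h
  have h4 : star L = (c : ℂ) ^ 2 * L⁻¹ := by
    rw [← h2]; field_simp
  rw [star_mul', h4, h3]
  have h5 : star ((c : ℂ)⁻¹) = (c : ℂ)⁻¹ := by
    rw [star_inv₀]; congr 1; exact Complex.conj_ofReal c
  rw [h5]
  field_simp

theorem taskUnit : TaskUnit.{v, u} := by
  intro C _ _ _ _ _ R G hU dl coef hd1 hd2 hd3 hd4 G' hG1 hG2
  have : MonoidalPreadditive C := IsFusion.additive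
  have : MonoidalLinear ℂ C := IsFusion.linear
  have H : Hyp G dl coef G' := ⟨hU, hd1, hd2, hd3, hd4, hG1, hG2⟩
  obtain ⟨o, ⟨e⟩⟩ := R.all (𝟙_ C) IsFusion.simple_unit
  have h1 : e.inv ≫ e.hom = 𝟙 _ := e.inv_hom_id
  have h2 : e.hom ≫ e.inv = 𝟙 _ := e.hom_inv_id
  obtain ⟨k0⟩ := E6 H (uu e.inv o) (ui e.hom o) (uu_ui e.inv e.hom h1 o) (ui_uu e.inv e.hom h2 o)
  obtain ⟨hL, hR⟩ := all_norms e.inv e.hom h1 H h2 k0
  set c : ℝ := ‖coef o o (G.basis o o o k0 ≫ uu e.inv o)‖ with hc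
  have hc0 : 0 < c := by
    rw [hc, norm_pos_iff]
    intro h0
    have := E5 H (uu e.inv o) (ui e.hom o) (uu_ui e.inv e.hom h1 o) k0
    rw [h0, zero_mul] at this
    exact zero_ne_one this
  have hc' : (c : ℂ) ≠ 0 := by exact_mod_cast hc0.ne'
  refine ⟨o, (c : ℂ)⁻¹ • e.inv, (c : ℂ) • e.hom, ?_, ?_, ?_, ?_⟩
  · rw [Linear.smul_comp, Linear.comp_smul, smul_smul, inv_mul_cancel₀ hc', one_smul, h1]
  · rw [Linear.smul_comp, Linear.comp_smul, smul_smul, mul_inv_cancel₀ hc', one_smul, h2]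
  · intro b t k
    by_cases ht : t = b
    · subst ht
      have h3 : G.basis o t t k ≫ (((c : ℂ)⁻¹ • e.inv) ▷ R.S t) ≫ (λ_ (R.S t)).hom =
          (c : ℂ)⁻¹ • (G.basis o t t k ≫ uu e.inv t) := by
        unfold uu
        rw [MonoidalLinear.smul_whiskerRight, Linear.smul_comp, Linear.comp_smul]
      have h4 : (λ_ (R.S t)).inv ≫ (((c : ℂ) • e.hom) ▷ R.S t) ≫ G' o t t k =
          (c : ℂ) • (ui e.hom t ≫ G' o t t k) := by
        unfold ui
        rw [MonoidalLinear.smul_whiskerRight, Linear.smul_comp, Linear.comp_smul, Category.assoc]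
      rw [h3, h4, map_smul, map_smul, smul_eq_mul, smul_eq_mul]
      exact star_aux c hc0 _ _ (E5 H (uu e.inv t) (ui e.hom t) (uu_ui e.inv e.hom h1 t) k) (hL t k)
    · exact (E1 H (uu e.inv b) (ui e.hom b) (uu_ui e.inv e.hom h1 b) ht k).elim
  · intro b t k
    by_cases ht : t = b
    · subst ht
      have h3 : G.basis t o t k ≫ (R.S t ◁ ((c : ℂ)⁻¹ • e.inv)) ≫ (ρ_ (R.S t)).hom =
          (c : ℂ)⁻¹ • (G.basis t o t k ≫ ww e.inv t) := by
        unfold ww
        rw [MonoidalLinear.whiskerLeft_smul, Linear.smul_comp, Linear.comp_smul]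
      have h4 : (ρ_ (R.S t)).inv ≫ (R.S t ◁ ((c : ℂ) • e.hom)) ≫ G' t o t k =
          (c : ℂ) • (wi e.hom t ≫ G' t o t k) := by
        unfold wi
        rw [MonoidalLinear.whiskerLeft_smul, Linear.smul_comp, Linear.comp_smul, Category.assoc]
      rw [h3, h4, map_smul, map_smul, smul_eq_mul, smul_eq_mul]
      exact star_aux c hc0 _ _ (E5 H (ww e.inv t) (wi e.hom t) (ww_wi e.inv e.hom h1 t) k) (hR t k)
    · exact (E1 H (ww e.inv b) (wi e.hom b) (ww_wi e.inv e.hom h1 b) ht k).elim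

end Pool.Agent.Helper923.UF
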